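import Pool.Agent.Helper224.Asy10
import Pool.Agent.Helper224.Asy11

set_option autoImplicit false

/-!
The Banach-Mazur criterion for asymptotic l1 spaces: if all spans of members of the asymptotic
structure of a Banach space with a basis are uniformly isomorphic to l1 spaces, then the space is
asymptotic l1 with respect to that basis.
-/

namespace Pool.Agent.Results.MP_70ce06_an.AsymptoticL1

open Filter Topology

universe u

section defs

variable {X : Type u} [NormedAddCommGroup X] [NormedSpace ℝ X]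

/-- The tail space, the closed linear span of the basis vectors with index at least k. -/
def tailSpace (e : SchauderBasis ℝ X) (k : ℕ) : Submodule ℝ X :=
  (Submodule.span ℝ (e '' {i : ℕ | k ≤ i})).topologicalClosure

/-- The unit sphere of the tail space. -/
def tailSphere (e : SchauderBasis ℝ X) (k : ℕ) : Set X := {x | x ∈ tailSpace e k ∧ ‖x‖ = 1}

/-- C-equivalence of two finite sequences of vectors. -/
def IsEquivalent {F G : Type*} [NormedAddCommGroup F] [NormedSpace ℝ F] [NormedAddCommGroup G]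
    [NormedSpace ℝ G] {n : ℕ} (C : ℝ) (x : Fin n → F) (b : Fin n → G) : Prop :=
  ∃ A B : ℝ, 0 < A ∧ 0 < B ∧ A * B ≤ C ∧ ∀ a : Fin n → ℝ,
    A⁻¹ * ‖∑ i, a i • b i‖ ≤ ‖∑ i, a i • x i‖ ∧ ‖∑ i, a i • x i‖ ≤ B * ‖∑ i, a i • b i‖

/-- For every k_1 one can pick x_1 in the unit sphere of the k_1-th tail such that for every k_2
one can pick x_2, and so on, for n steps, in such a way that the picked sequence satisfies P. -/
def CanPick (e : SchauderBasis ℝ X) : (n : ℕ) → ((Fin n → X) → Prop) → Prop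
  | 0, P => P Fin.elim0
  | n + 1, P => ∀ k : ℕ, ∃ x ∈ tailSphere e k, CanPick e n (fun y => P (Fin.cons x y))

/-- The normalized basic sequence b of length n belongs to the n-th asymptotic structure of X
with respect to the basis e. -/
def InAsymptotic (e : SchauderBasis ℝ X) (n : ℕ) {E : Type} [NormedAddCommGroup E]
    [NormedSpace ℝ E] (b : Fin n → E) : Prop :=
  LinearIndependent ℝ b ∧ (∀ i, ‖b i‖ = 1) ∧
    ∀ ε : ℝ, 0 < ε → CanPick e n (fun x => IsEquivalent (1 + ε) x b)

/-- The Banach-Mazur distance. -/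
noncomputable def bmDist (E F : Type*) [NormedAddCommGroup E] [NormedSpace ℝ E]
    [NormedAddCommGroup F] [NormedSpace ℝ F] : ℝ :=
  sInf {r : ℝ | ∃ T : E ≃L[ℝ] F, r = ‖(T : E →L[ℝ] F)‖ * ‖(T.symm : F →L[ℝ] E)‖}

/-- The n-dimensional l1 space. -/
abbrev ell1 (n : ℕ) : Type := PiLp 1 (fun _ : Fin n => ℝ)

/-- The standard basis of the n-dimensional l1 space. -/
noncomputable def ell1Basis (n : ℕ) : Fin n → ell1 n := fun i => WithLp.toLp 1 (Pi.single i 1)

/-- X is asymptotic l1 with respect to the basis e. -/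
def IsAsymptoticL1 (e : SchauderBasis ℝ X) : Prop :=
  ∃ K : ℝ, ∀ (n : ℕ) (E : Type) [NormedAddCommGroup E] [NormedSpace ℝ E] (b : Fin n → E),
    InAsymptotic e n b → IsEquivalent K b (ell1Basis n)

end defs

open Pool.Agent.Helper224

section bridge

variable {X : Type u} [NormedAddCommGroup X] [NormedSpace ℝ X]

lemma canPick_iff (e : SchauderBasis ℝ X) (n : ℕ) : ∀ P : (Fin n → X) → Prop,
    CanPick e n P ↔ Asy6.Game (Asy6.Sph (tailSpace e)) n P := by
  induction n with
  | zero => intro P; rfl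
  | succ n ih =>
    intro P
    show (∀ k : ℕ, ∃ x ∈ tailSphere e k, CanPick e n (fun y => P (Fin.cons x y))) ↔
      (∀ k, ∃ x ∈ Asy6.Sph (tailSpace e) k,
        Asy6.Game (Asy6.Sph (tailSpace e)) n (fun y => P (Fin.cons x y)))
    simp only [ih]
    rfl

lemma tail_anti (e : SchauderBasis ℝ X) : Antitone (tailSpace e) := by
  intro k l hkl
  unfold tailSpace
  apply Submodule.topologicalClosure_mono
  apply Submodule.span_mono
  apply Set.image_mono
  intro i hi
  exact le_trans hkl hi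

lemma tail_ne (e : SchauderBasis ℝ X) (k : ℕ) : (Asy6.Sph (tailSpace e) k).Nonempty := by
  have hne : e k ≠ 0 := by
    intro h
    have := e.ortho k k
    have h2 : e.basis k = 0 := h
    rw [h2] at this
    simp at this
  refine ⟨‖e k‖⁻¹ • e k, ?_, ?_⟩
  · apply Submodule.smul_mem
    apply Submodule.le_topologicalClosure
    apply Submodule.subset_span
    exact ⟨k, le_refl k, rfl⟩
  · rw [norm_smul, norm_inv, norm_norm]
    exact inv_mul_cancel₀ (norm_ne_zero_iff.mpr hne)

lemma proj_tail (e : SchauderBasis ℝ X) (k : ℕ) (z : X) (hz : z ∈ tailSpace e k) :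
    e.proj k z = 0 := by
  have h1 : tailSpace e k ≤ (e.proj k).toLinearMap.ker := by
    unfold tailSpace
    apply Submodule.topologicalClosure_minimal
    · rw [Submodule.span_le]
      rintro _ ⟨i, hi, rfl⟩
      show e.proj k (e i) = 0
      rw [SchauderBasis.proj_apply_basis_mem, if_neg]
      exact not_lt.mpr hi
    · exact (e.proj k).isClosed_ker
  exact h1 hz

lemma tail_ineq [CompleteSpace X] (e : SchauderBasis ℝ X) :
    ∃ C₀ : ℝ, 0 < C₀ ∧ Asy5.TailIneq (tailSpace e) C₀ := by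
  obtain ⟨C, hC⟩ := e.exists_norm_proj_le
  refine ⟨max C 1, lt_max_of_lt_right one_pos, ?_⟩
  intro v ε hε
  have h1 := e.tendsto_proj v
  rw [Metric.tendsto_atTop] at h1
  obtain ⟨k, hk⟩ := h1 ε hε
  refine ⟨k, fun z hz => ?_⟩
  have h2 := hk k le_rfl
  rw [dist_eq_norm] at h2
  have h3 : e.proj k (v + z) = e.proj k v := by
    rw [map_add, proj_tail e k z hz, add_zero]
  calc ‖v‖ = ‖e.proj k v - (e.proj k v - v)‖ := by rw [sub_sub_cancel]
    _ ≤ ‖e.proj k v‖ + ‖e.proj k v - v‖ := norm_sub_le _ _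
    _ ≤ ‖e.proj k (v + z)‖ + ε := by rw [h3]; linarith
    _ ≤ ‖e.proj k‖ * ‖v + z‖ + ε := by
        have := (e.proj k).le_opNorm (v + z)
        linarith
    _ ≤ max C 1 * ‖v + z‖ + ε := by
        have := mul_le_mul_of_nonneg_right ((hC k).trans (le_max_left C 1)) (norm_nonneg (v + z))
        linarith

/-- norm of the l1 space -/
lemma ell1_norm {n : ℕ} (x : ell1 n) : ‖x‖ = ∑ i, |x i| := by
  rw [PiLp.norm_eq_of_nat 1 (by simp)]
  simp

lemma exists_T {n : ℕ} {E : Type} [NormedAddCommGroup E] [NormedSpace ℝ E] (b : Fin n → E)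
    (hb : LinearIndependent ℝ b) (K : ℝ)
    (h : bmDist (Submodule.span ℝ (Set.range b)) (ell1 n) ≤ K) :
    ∃ T : (Fin n → ℝ) ≃ₗ[ℝ] (Fin n → ℝ), (∀ a, ‖∑ i, a i • b i‖ ≤ ∑ i, |T a i|) ∧
      ∀ a, ∑ i, |T a i| ≤ (K + 1) * ‖∑ i, a i • b i‖ := by
  have hfd : FiniteDimensional ℝ (Submodule.span ℝ (Set.range b)) :=
    FiniteDimensional.span_of_finite ℝ (Set.finite_range b)
  have hdim : Module.finrank ℝ (Submodule.span ℝ (Set.range b)) = Module.finrank ℝ (ell1 n) := by
    rw [finrank_span_eq_card hb, Fintype.card_fin]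
    exact ((WithLp.linearEquiv 1 ℝ (Fin n → ℝ)).finrank_eq.trans (Module.finrank_fin_fun ℝ)).symm
  have hne : {r : ℝ | ∃ T : Submodule.span ℝ (Set.range b) ≃L[ℝ] ell1 n,
      r = ‖(T : Submodule.span ℝ (Set.range b) →L[ℝ] ell1 n)‖ *
        ‖(T.symm : ell1 n →L[ℝ] Submodule.span ℝ (Set.range b))‖}.Nonempty :=
    ⟨_, ContinuousLinearEquiv.ofFinrankEq hdim, rfl⟩
  have hlt : bmDist (Submodule.span ℝ (Set.range b)) (ell1 n) < K + 1 := by linarith
  obtain ⟨r, ⟨T, hr⟩, hrK⟩ := exists_lt_of_csInf_lt hne hlt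
  rw [hr] at hrK
  set p := ‖(T : Submodule.span ℝ (Set.range b) →L[ℝ] ell1 n)‖ with hp
  set q := ‖(T.symm : ell1 n →L[ℝ] Submodule.span ℝ (Set.range b))‖ with hq
  have hp0 : 0 ≤ p := ContinuousLinearMap.opNorm_nonneg _
  have hq0 : 0 ≤ q := ContinuousLinearMap.opNorm_nonneg _
  set η := (K + 1 - p * q) / (p + 1) with hη
  have hη0 : 0 < η := div_pos (by linarith) (by linarith)
  have hηp : η * (p + 1) = K + 1 - p * q := by rw [hη]; field_simp
  set s := q + η with hs
  have hs0 : 0 < s := by linarith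
  have hsp : s * p ≤ K + 1 := by
    rw [hs]; nlinarith
  let B : Module.Basis (Fin n) ℝ (Submodule.span ℝ (Set.range b)) := Module.Basis.span hb
  let T' : (Fin n → ℝ) ≃ₗ[ℝ] (Fin n → ℝ) :=
    ((B.equivFun.symm.trans T.toLinearEquiv).trans (WithLp.linearEquiv 1 ℝ (Fin n → ℝ))).trans
      (LinearEquiv.smulOfNeZero ℝ (Fin n → ℝ) s hs0.ne')
  have hv : ∀ a : Fin n → ℝ, ((B.equivFun.symm a : Submodule.span ℝ (Set.range b)) : E) =
      ∑ i, a i • b i := by
    intro a
    rw [Module.Basis.equivFun_symm_apply]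
    simp [B, Module.Basis.span_apply]
  have hT' : ∀ a i, T' a i = s * (T (B.equivFun.symm a)) i := fun a i => rfl
  have hsum : ∀ a, ∑ i, |T' a i| = s * ‖T (B.equivFun.symm a)‖ := by
    intro a
    rw [ell1_norm, Finset.mul_sum]
    apply Finset.sum_congr rfl; intro i _
    rw [hT', abs_mul, abs_of_pos hs0]
  refine ⟨T', fun a => ?_, fun a => ?_⟩
  · rw [hsum, ← hv a]
    have h1 : ‖B.equivFun.symm a‖ ≤ q * ‖T (B.equivFun.symm a)‖ := by
      have := (T.symm : ell1 n →L[ℝ] Submodule.span ℝ (Set.range b)).le_opNorm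
        (T (B.equivFun.symm a))
      simpa using this
    have h2 : q * ‖T (B.equivFun.symm a)‖ ≤ s * ‖T (B.equivFun.symm a)‖ :=
      mul_le_mul_of_nonneg_right (by linarith) (norm_nonneg _)
    have h3 : ‖((B.equivFun.symm a : Submodule.span ℝ (Set.range b)) : E)‖ =
      ‖B.equivFun.symm a‖ := rfl
    rw [h3]; linarith
  · rw [hsum, ← hv a]
    have h1 : ‖T (B.equivFun.symm a)‖ ≤ p * ‖B.equivFun.symm a‖ :=
      (T : Submodule.span ℝ (Set.range b) →L[ℝ] ell1 n).le_opNorm (B.equivFun.symm a)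
    have h3 : ‖((B.equivFun.symm a : Submodule.span ℝ (Set.range b)) : E)‖ =
      ‖B.equivFun.symm a‖ := rfl
    rw [h3]
    calc s * ‖T (B.equivFun.symm a)‖ ≤ s * (p * ‖B.equivFun.symm a‖) :=
          mul_le_mul_of_nonneg_left h1 hs0.le
      _ = (s * p) * ‖B.equivFun.symm a‖ := by ring
      _ ≤ (K + 1) * ‖B.equivFun.symm a‖ := mul_le_mul_of_nonneg_right hsp (norm_nonneg _)

lemma hyp_of (e : SchauderBasis ℝ X) (K : ℝ)
    (h : ∀ (n : ℕ) (E : Type) [NormedAddCommGroup E] [NormedSpace ℝ E] (b : Fin n → E),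
      InAsymptotic e n b → bmDist (Submodule.span ℝ (Set.range b)) (ell1 n) ≤ K) :
    Asy8.Hyp (tailSpace e) (K + 1) := by
  intro n N hN
  obtain ⟨hN1, hN2, hN3⟩ := hN
  obtain ⟨E, i1, i2, b, hb, hnorm⟩ := Asy11.realize n N hN1
  have hmem : InAsymptotic e n b := by
    refine ⟨hb, fun i => ?_, fun ε hε => ?_⟩
    · rw [← hN2 i, ← hnorm, Finset.sum_eq_single i]
      · rw [Pi.single_eq_same, one_smul]
      · intro j _ hj; rw [Pi.single_eq_of_ne hj, zero_smul]
      · intro h; exact absurd (Finset.mem_univ i) h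
    rw [canPick_iff]
    refine Asy6.Game_mono _ n _ _ ?_ (hN3 ε hε)
    rintro x ⟨A, B, hA, hB, hAB, hx⟩
    refine ⟨A, B, hA, hB, hAB, fun a => ?_⟩
    rw [hnorm]; exact hx a
  obtain ⟨T, hT1, hT2⟩ := exists_T b hb K (h n E b hmem)
  refine ⟨T, fun a => ?_, fun a => ?_⟩
  · rw [← hnorm]; exact hT1 a
  · rw [← hnorm]; exact hT2 a

/-- norm of a combination of the standard basis of the l1 space -/
lemma ell1_sum {n : ℕ} (a : Fin n → ℝ) : ‖∑ i, a i • ell1Basis n i‖ = ∑ i, |a i| := by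
  rw [ell1_norm]
  apply Finset.sum_congr rfl; intro i _
  congr 1
  unfold ell1Basis
  simp [Pi.single_apply]

/-- Sanity check (the easy converse, not part of the result): equivalence to the l1 basis bounds
the Banach-Mazur distance. -/
theorem bmDist_le {n : ℕ} {E : Type} [NormedAddCommGroup E] [NormedSpace ℝ E] (b : Fin n → E)
    (hb : LinearIndependent ℝ b) (K : ℝ) (h : IsEquivalent K b (ell1Basis n)) :
    bmDist (Submodule.span ℝ (Set.range b)) (ell1 n) ≤ K := by
  obtain ⟨A, B, hA, hB, hAB, h⟩ := h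
  have hfd : FiniteDimensional ℝ (Submodule.span ℝ (Set.range b)) :=
    FiniteDimensional.span_of_finite ℝ (Set.finite_range b)
  let Bs : Module.Basis (Fin n) ℝ (Submodule.span ℝ (Set.range b)) := Module.Basis.span hb
  let S : Submodule.span ℝ (Set.range b) ≃ₗ[ℝ] ell1 n :=
    Bs.equivFun.trans (WithLp.linearEquiv 1 ℝ (Fin n → ℝ)).symm
  let T : Submodule.span ℝ (Set.range b) ≃L[ℝ] ell1 n := S.toContinuousLinearEquiv
  have hv : ∀ a : Fin n → ℝ, ((Bs.equivFun.symm a : Submodule.span ℝ (Set.range b)) : E) =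
      ∑ i, a i • b i := by
    intro a
    rw [Module.Basis.equivFun_symm_apply]
    simp [Bs, Module.Basis.span_apply]
  have hn1 : ∀ x : Submodule.span ℝ (Set.range b), ‖x‖ = ‖∑ i, (Bs.equivFun x) i • b i‖ := by
    intro x
    rw [← hv, LinearEquiv.symm_apply_apply]; rfl
  have hn2 : ∀ x : Submodule.span ℝ (Set.range b), ‖T x‖ =
      ‖∑ i, (Bs.equivFun x) i • ell1Basis n i‖ := by
    intro x
    rw [ell1_sum, ell1_norm]; rfl
  have h1 : ‖(T : Submodule.span ℝ (Set.range b) →L[ℝ] ell1 n)‖ ≤ A := by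
    refine ContinuousLinearMap.opNorm_le_bound _ hA.le (fun x => ?_)
    have := (h (Bs.equivFun x)).1
    rw [← hn1, ← hn2, inv_mul_le_iff₀ hA] at this
    exact this
  have h2 : ‖(T.symm : ell1 n →L[ℝ] Submodule.span ℝ (Set.range b))‖ ≤ B := by
    refine ContinuousLinearMap.opNorm_le_bound _ hB.le (fun y => ?_)
    have := (h (Bs.equivFun (T.symm y))).2
    rw [← hn1, ← hn2, ContinuousLinearEquiv.apply_symm_apply] at this
    exact this
  have hbdd : BddBelow {r : ℝ | ∃ T : Submodule.span ℝ (Set.range b) ≃L[ℝ] ell1 n,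
      r = ‖(T : Submodule.span ℝ (Set.range b) →L[ℝ] ell1 n)‖ *
        ‖(T.symm : ell1 n →L[ℝ] Submodule.span ℝ (Set.range b))‖} := by
    refine ⟨0, ?_⟩
    rintro r ⟨T', rfl⟩
    exact mul_nonneg (ContinuousLinearMap.opNorm_nonneg _) (ContinuousLinearMap.opNorm_nonneg _)
  exact (csInf_le hbdd ⟨T, rfl⟩).trans
    ((mul_le_mul h1 h2 (ContinuousLinearMap.opNorm_nonneg _) hA.le).trans hAB)

end bridge

/-- The Banach-Mazur criterion: uniform Banach-Mazur closeness of all spans of members of the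
asymptotic structure to l1 spaces implies that the space is asymptotic l1. -/
theorem result : ∀ (X : Type u) [NormedAddCommGroup X] [NormedSpace ℝ X] [CompleteSpace X]
    (e : SchauderBasis ℝ X),
    (∃ K : ℝ, ∀ (n : ℕ) (E : Type) [NormedAddCommGroup E] [NormedSpace ℝ E] (b : Fin n → E),
      InAsymptotic e n b → bmDist (Submodule.span ℝ (Set.range b)) (ell1 n) ≤ K) →
    IsAsymptoticL1 e := by
  intro X _ _ _ e hK
  obtain ⟨K, hK⟩ := hK
  obtain ⟨C₀, hC₀, hT⟩ := tail_ineq e
  have hH : Asy8.Hyp (tailSpace e) (max K 0 + 1) := by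
    apply hyp_of e (max K 0)
    intro n E _ _ b hb
    exact (hK n E b hb).trans (le_max_left _ _)
  have hK1 : 0 < max K 0 + 1 := by
    have := le_max_right K 0
    linarith
  obtain ⟨θ, hθ, hmain⟩ := Asy10.main_abs (tail_anti e) (tail_ne e) hC₀ hT hK1 hH
  refine ⟨θ⁻¹, ?_⟩
  intro n E _ _ b hb
  obtain ⟨hb1, hb2, hb3⟩ := hb
  let N : Seminorm ℝ (Fin n → ℝ) :=
    (normSeminorm ℝ E).comp (Fintype.linearCombination ℝ b)
  have hN : ∀ a, N a = ‖∑ i, a i • b i‖ := fun a => rfl
  have hmem : Asy6.IsMem (Asy6.Sph (tailSpace e)) n N := by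
    refine ⟨?_, ?_, ?_⟩
    · intro a ha
      rw [hN, norm_eq_zero] at ha
      funext i
      exact (Fintype.linearIndependent_iff.mp hb1) a ha i
    · intro i
      rw [hN, Finset.sum_eq_single i]
      · simp [hb2]
      · intro j _ hj; rw [Pi.single_eq_of_ne hj, zero_smul]
      · intro h; exact absurd (Finset.mem_univ i) h
    · intro ε hε
      have h1 := hb3 ε hε
      rw [canPick_iff] at h1
      refine Asy6.Game_mono _ n _ _ ?_ h1
      rintro x ⟨A, B, hA, hB, hAB, hx⟩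
      exact ⟨A, B, hA, hB, hAB, fun a => hx a⟩
  have hl1 : ∀ a : Fin n → ℝ, ‖∑ i, a i • ell1Basis n i‖ = ∑ i, |a i| := ell1_sum
  refine ⟨θ⁻¹, 1, inv_pos.mpr hθ, one_pos, by rw [mul_one], fun a => ⟨?_, ?_⟩⟩
  · rw [hl1, inv_inv]
    exact hmain n N hmem a
  · rw [hl1, one_mul]
    refine (norm_sum_le _ _).trans ?_
    apply Finset.sum_le_sum; intro i _
    rw [norm_smul, hb2, mul_one, Real.norm_eq_abs]

end Pool.Agent.Results.MP_70ce06_an.AsymptoticL1
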